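import Pool.Agent.Helper55_DC.FinB

set_option autoImplicit false

/-! Module FIN of the squad for the problem on dynamical compressibility. -/

namespace Pool.Agent.Helper55_DC

open MeasureTheory Filter Pool.Agent.Helper95_DC

/-- A target of a homomorphism that contradicts the existence of an invariant measure. -/
theorem no_finite_index {G : Type} [Group G] [Countable G] {Y : Type} [MeasurableSpace Y]
    [MulAction G Y] (hmeas : ∀ g : G, Measurable (fun y : Y => g • y))
    (hno : ∀ (ν : Measure Y) [IsFiniteMeasure ν], (∀ g : G, ν.map (fun y => g • y) = ν) → ν = 0)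
    (H : Subgroup G) (hH : H.FiniteIndex) (ν : Measure Y) [IsFiniteMeasure ν]
    (hν : ∀ h ∈ H, ν.map (fun y => h • y) = ν) : ν = 0 := by
  classical
  have : Fintype (G ⧸ H) := Subgroup.fintypeQuotientOfFiniteIndex
  have hkey : ∀ a b : G, (a : G ⧸ H) = b → ν.map (fun y => a • y) = ν.map (fun y => b • y) := by
    intro a b hab
    have h1 : a⁻¹ * b ∈ H := QuotientGroup.eq.1 hab
    have h2 : (fun y : Y => b • y) = (fun y => a • y) ∘ (fun y => (a⁻¹ * b) • y) := by
      funext y
      simp [mul_smul]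
    rw [h2, ← Measure.map_map (hmeas a) (hmeas _), hν _ h1]
  have hsum := hno (∑ q : G ⧸ H, ν.map (fun y => q.out • y)) (fun g => by
    have hlin : (∑ q : G ⧸ H, ν.map (fun y => q.out • y)).map (fun y => g • y) =
        ∑ q : G ⧸ H, (ν.map (fun y => q.out • y)).map (fun y => g • y) := by
      rw [← Measure.mapₗ_apply_of_measurable (hmeas g), map_sum]
      refine Finset.sum_congr rfl fun q _ => ?_
      rw [Measure.mapₗ_apply_of_measurable (hmeas g)]
    rw [hlin]
    have h3 : ∀ q : G ⧸ H, (ν.map (fun y => q.out • y)).map (fun y => g • y) =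
        ν.map (fun y => (g • q).out • y) := by
      intro q
      rw [Measure.map_map (hmeas g) (hmeas _)]
      have h4 : (fun y : Y => g • y) ∘ (fun y => q.out • y) = fun y => (g * q.out) • y := by
        funext y
        simp [mul_smul]
      rw [h4]
      apply hkey
      rw [QuotientGroup.out_eq']
      conv_rhs => rw [← QuotientGroup.out_eq' q]
      rfl
    rw [Finset.sum_congr rfl fun q _ => h3 q]
    exact Fintype.sum_equiv (MulAction.toPerm g) _ _ (fun q => rfl))
  rw [← Measure.measure_univ_eq_zero] at hsum ⊢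
  rw [Measure.finsetSum_apply] at hsum
  have h5 := (Finset.sum_eq_zero_iff.1 hsum) ((1 : G) : G ⧸ H) (Finset.mem_univ _)
  rw [Measure.map_apply (hmeas _) MeasurableSet.univ, Set.preimage_univ] at h5
  exact h5

theorem core (hSTAB : StabStatement) (hSR : SRStatement) (hLOCF : LocfStatement)
    (G : Type) [Group G] (hG : Monster G) (Y : Type) [MeasurableSpace Y] [StandardBorelSpace Y]
    [MulAction G Y] (hmeas : ∀ g : G, Measurable (fun y : Y => g • y))
    (horb : ∀ y : Y, (MulAction.orbit G y).Infinite)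
    (hno : ∀ (ν : Measure Y) [IsFiniteMeasure ν], (∀ g : G, ν.map (fun y => g • y) = ν) → ν = 0)
    (f : X0 G → Y) (hf : Measurable f)
    (hf1 : ∀ x, Function.Injective x → ∀ g, f (shift g x) ∈ MulAction.orbit G (f x))
    (hf2 : ∀ y₀ : Y, (bX G).P {x | f x ∈ MulAction.orbit G y₀} = 0) : False := by
  classical
  have hcount := hG.countable
  have hinf := hG.infinite
  obtain ⟨S, C, hC, hcl, hK⟩ := hG.kazhdan
  obtain ⟨V, hVanti, hVn, hVfi, hVbot, hVidx⟩ := hG.filtration
  have hinj := bX_inj G
  -- the general contradiction from LOCF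
  have hlocf : ∀ (N : Subgroup G), (∀ H : Subgroup G, H ≤ N → H.FG → Finite H) →
      ∀ (γ : X0 G → G), (∀ k, MeasurableSet {x | γ x = k}) →
      ¬ (∀ g, ∀ᵐ x ∂(bX G).P, ∃ n ∈ N, γ (shift g x) • f (shift g x) = n • (γ x • f x)) := by
    intro N hN γ hγ h
    obtain ⟨y₀, hy₀⟩ := hLOCF G S C hC hK N hN Y hmeas (fun x => γ x • f x)
      (measurable_piece hmeas γ hγ f hf) h
    apply hy₀
    refine measure_mono_null ?_ (hf2 y₀)
    intro x hx
    obtain ⟨g, hg⟩ : γ x • f x ∈ MulAction.orbit G y₀ := hx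
    refine ⟨(γ x)⁻¹ * g, ?_⟩
    show ((γ x)⁻¹ * g) • y₀ = f x
    have hg' : g • y₀ = γ x • f x := hg
    rw [mul_smul, hg', inv_smul_smul]
  -- the step from almost everywhere in x to almost everywhere along the shift
  have hshift : ∀ (g : G) (p : X0 G → Prop), (∀ᵐ x ∂(bX G).P, p x) →
      ∀ᵐ x ∂(bX G).P, p (shift g x) := by
    intro g p hp
    exact ((bX G).mp g).quasiMeasurePreserving.ae hp
  -- first application: the stabilizers
  set ψ : ℕ → X0 G → Subgroup G := fun j x => MulAction.stabilizer G (f x) ⊔ V j with hψ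
  have hψm : ∀ j (L : Subgroup G), MeasurableSet {x | ψ j x = L} := by
    intro j L
    have := hVn j
    have h1 : {x | ψ j x = L} = ⋂ h : G, {x | h ∈ ψ j x ↔ h ∈ L} := by
      ext x
      simp only [Set.mem_setOf_eq, Set.mem_iInter]
      exact ⟨fun h g => by rw [h], fun h => Subgroup.ext h⟩
    rw [h1]
    refine MeasurableSet.iInter fun h => ?_
    have h2 : MeasurableSet {x | h ∈ ψ j x} := by
      have h3 : {x | h ∈ ψ j x} = ⋃ v : V j, {x | (h * (v : G)) • f x = f x} := by
        ext x
        simp only [Set.mem_setOf_eq, Set.mem_iUnion, hψ, mem_stab_sup]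
        constructor
        · rintro ⟨v, hv, h⟩
          exact ⟨⟨v, hv⟩, h⟩
        · rintro ⟨v, h⟩
          exact ⟨v, v.2, h⟩
      rw [h3]
      exact MeasurableSet.iUnion fun v => measurableSet_eq_fun ((hmeas _).comp hf) hf
    exact h2.iff (MeasurableSet.const _)
  set κ : G → X0 G → G := fun g x => sel (G := G) (f x) (f (shift g x)) with hκ
  have hκm : ∀ g k, MeasurableSet {x | κ g x = k} := fun g k =>
    measurable_sel hmeas f (fun x => f (shift g x)) hf (hf.comp (measurable_shift g)) k
  have hκs : ∀ g x, Function.Injective x → f (shift g x) = κ g x • f x := fun g x hx =>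
    sel_spec (hf1 x hx g)
  have hψκ : ∀ g x, Function.Injective x → ∀ j h, h ∈ ψ j (shift g x) ↔
      (κ g x)⁻¹ * h * κ g x ∈ ψ j x := by
    intro g x hx j h
    have := hVn j
    show h ∈ MulAction.stabilizer G (f (shift g x)) ⊔ V j ↔ _
    rw [hκs g x hx]
    exact mem_stab_sup_smul (V j) (f x) (κ g x) h
  obtain ⟨x₀, -, γ, hγm, hγ⟩ := hSTAB G S C hC hK V hVanti hVn hVfi ψ
    (fun j x => le_sup_right)
    (fun i j x hij => by
      show MulAction.stabilizer G (f x) ⊔ V i = MulAction.stabilizer G (f x) ⊔ V j ⊔ V i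
      rw [sup_assoc, sup_eq_right.2 (hVanti hij)])
    hψm κ hκm
    (fun g => by
      filter_upwards [hinj] with x hx
      exact hψκ g x hx)
    Set.univ (Filter.Eventually.of_forall fun _ => Set.mem_univ _)
  -- the common normalizer
  let N : Subgroup G :=
    { carrier := {g | ∀ j h, h ∈ ψ j x₀ ↔ g⁻¹ * h * g ∈ ψ j x₀}
      one_mem' := by
        intro j h
        simp
      mul_mem' := by
        intro a b ha hb j h
        have h1 : (a * b)⁻¹ * h * (a * b) = b⁻¹ * (a⁻¹ * h * a) * b := by group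
        rw [h1, ← hb j, ← ha j]
      inv_mem' := by
        intro a ha j h
        have h1 := ha j (a⁻¹⁻¹ * h * a⁻¹)
        have h2 : a⁻¹ * (a⁻¹⁻¹ * h * a⁻¹) * a = h := by group
        rw [h2] at h1
        exact h1.symm }
  have hNmem : ∀ g, g ∈ N ↔ ∀ j h, h ∈ ψ j x₀ ↔ g⁻¹ * h * g ∈ ψ j x₀ := fun g => Iff.rfl
  by_cases hNfi : N.FiniteIndex
  swap
  · -- N has infinite index
    refine hlocf N ?_ γ hγm ?_
    · intro H hHN hHfg
      rcases hG.dichotomy H hHfg with h | h
      · exact h
      · exact absurd (Subgroup.finiteIndex_of_le hHN) hNfi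
    · intro g
      filter_upwards [hinj, hγ, hshift g _ hγ] with x hx hγx hγgx
      refine ⟨γ (shift g x) * κ g x * (γ x)⁻¹, ?_, ?_⟩
      · rw [hNmem]
        intro j h
        rw [hγgx j h, hψκ g x hx j, hγx j]
        have h1 : (κ g x)⁻¹ * ((γ (shift g x))⁻¹ * h * γ (shift g x)) * κ g x =
            (γ x)⁻¹ * ((γ (shift g x) * κ g x * (γ x)⁻¹)⁻¹ * h *
              (γ (shift g x) * κ g x * (γ x)⁻¹)) * γ x := by group
        rw [h1]
      · rw [hκs g x hx]
        simp only [mul_smul, inv_smul_smul]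
  -- N has finite index
  have hMidx : ¬ (⨅ j, ψ j x₀).FiniteIndex := by
    intro hM
    by_cases hst : (MulAction.stabilizer G (f x₀)).FiniteIndex
    · have h1 : (MulAction.orbit G (f x₀)).Finite := by
        have : Finite (G ⧸ MulAction.stabilizer G (f x₀)) :=
          Subgroup.finite_quotient_of_finiteIndex
        exact Set.finite_coe_iff.1 (Finite.of_equiv _
          (MulAction.orbitEquivQuotientStabilizer G (f x₀)).symm)
      exact horb (f x₀) h1
    · obtain ⟨j, hj⟩ := hVidx _ hst ((⨅ j, ψ j x₀).index + 1)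
      have h2 : (MulAction.stabilizer G (f x₀) ⊔ V j).index ≤ (⨅ j, ψ j x₀).index := by
        refine Nat.le_of_dvd (Nat.pos_of_ne_zero hM.index_ne_zero)
          (Subgroup.index_dvd_of_le ?_)
        exact iInf_le _ j
      omega
  have hMbot : (⨅ j, ψ j x₀) = ⊥ := by
    refine hG.radical _ N hNfi hMidx ?_
    intro n hn m hm
    rw [Subgroup.mem_iInf] at hm ⊢
    intro j
    rw [(hNmem n).1 hn j]
    have h1 : n⁻¹ * (n * m * n⁻¹) * n = m := by group
    rw [h1]
    exact hm j
  have hfree : ∀ᵐ x ∂(bX G).P, MulAction.stabilizer G (f x) = ⊥ := by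
    filter_upwards [hγ] with x hx
    rw [eq_bot_iff]
    intro h hh
    have h1 : γ x * h * (γ x)⁻¹ ∈ (⨅ j, ψ j x₀) := by
      rw [Subgroup.mem_iInf]
      intro j
      rw [hx j]
      have h2 : (γ x)⁻¹ * (γ x * h * (γ x)⁻¹) * γ x = h := by group
      rw [h2]
      exact (le_sup_left : _ ≤ ψ j x) hh
    rw [hMbot, Subgroup.mem_bot] at h1
    rw [Subgroup.mem_bot]
    have h3 : γ x * h = γ x := by
      rwa [mul_inv_eq_one] at h1
    exact mul_eq_left.1 h3
  -- the exact cocycle
  set E : Set (X0 G) := {x | Function.Injective x ∧ MulAction.stabilizer G (f x) = ⊥} with hE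
  have hEinv : ∀ g x, x ∈ E → shift g x ∈ E := by
    rintro g x ⟨h1, h2⟩
    refine ⟨shift_inj g h1, ?_⟩
    rw [hκs g x h1]
    rw [eq_bot_iff] at h2 ⊢
    intro h hh
    have h3 : (κ g x)⁻¹ * h * κ g x ∈ MulAction.stabilizer G (f x) := by
      rw [MulAction.mem_stabilizer_iff] at hh ⊢
      rw [mul_smul, mul_smul, hh, inv_smul_smul]
    have h4 := h2 h3
    rw [Subgroup.mem_bot] at h4 ⊢
    have h5 : h = κ g x * ((κ g x)⁻¹ * h * κ g x) * (κ g x)⁻¹ := by group
    rw [h5, h4]
    group
  have hEinv' : ∀ g x, shift g x ∈ E → x ∈ E := by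
    intro g x hx
    have h1 := hEinv g⁻¹ _ hx
    rwa [← shift_mul', inv_mul_cancel, shift_one'] at h1
  have hEm : MeasurableSet E := by
    have h1 : E = {x | Function.Injective x} ∩ ⋂ g : G, ⋂ _ : g ≠ 1, {x | g • f x = f x}ᶜ := by
      ext x
      simp only [hE, Set.mem_setOf_eq, Set.mem_inter_iff, Set.mem_iInter, Set.mem_compl_iff]
      refine and_congr_right fun _ => ?_
      rw [eq_bot_iff]
      constructor
      · intro h g hg hgf
        exact hg (by simpa using h hgf)
      · intro h g hg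
        by_contra hg1
        exact h g (by simpa using hg1) hg
    rw [h1]
    exact (measurableSet_inj G).inter (MeasurableSet.iInter fun g => MeasurableSet.iInter fun _ =>
      (measurableSet_eq_fun ((hmeas g).comp hf) hf).compl)
  have hEae : ∀ᵐ x ∂(bX G).P, x ∈ E := by
    filter_upwards [hinj, hfree] with x h1 h2 using ⟨h1, h2⟩
  set c : G → X0 G → G := fun g x => if x ∈ E then κ g x else 1 with hc
  have hcm : ∀ g k, MeasurableSet {x | c g x = k} := by
    intro g k
    have h1 : {x | c g x = k} = (E ∩ {x | κ g x = k}) ∪ (Eᶜ ∩ {_x | (1 : G) = k}) := by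
      ext x
      by_cases hx : x ∈ E
      · simp [hc, hx]
      · simp [hc, hx]
    rw [h1]
    exact (hEm.inter (hκm g k)).union (hEm.compl.inter (MeasurableSet.const _))
  have huniq : ∀ x ∈ E, ∀ a b : G, a • f x = b • f x → a = b := by
    rintro x ⟨_, h2⟩ a b hab
    have h3 : b⁻¹ * a ∈ MulAction.stabilizer G (f x) := by
      rw [MulAction.mem_stabilizer_iff, mul_smul, hab, inv_smul_smul]
    rw [h2, Subgroup.mem_bot] at h3
    exact (inv_mul_eq_one.1 h3).symm
  have hcoc : ∀ g h x, c (g * h) x = c g ((bX G).T h x) * c h x := by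
    intro g h x
    rw [bX_T]
    by_cases hx : x ∈ E
    · have hhx := hEinv h x hx
      simp only [hc, if_pos hx, if_pos hhx]
      apply huniq x hx
      rw [mul_smul, ← hκs h x hx.1, ← hκs g _ hhx.1, ← hκs _ x hx.1, shift_mul']
    · have hhx : shift h x ∉ E := fun h' => hx (hEinv' h x h')
      simp only [hc, if_neg hx, if_neg hhx, mul_one]
  obtain ⟨φ, π, hφm, hφ⟩ := hSR G S C hC hK c hcm hcoc
  have hφim : ∀ k, MeasurableSet {x | (φ x)⁻¹ = k} := by
    intro k
    have h1 : {x | (φ x)⁻¹ = k} = {x | φ x = k⁻¹} := by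
      ext x
      simp only [Set.mem_setOf_eq]
      exact inv_eq_iff_eq_inv
    rw [h1]
    exact hφm _
  have hf2eq : ∀ g, ∀ᵐ x ∂(bX G).P,
      (φ (shift g x))⁻¹ • f (shift g x) = π g • ((φ x)⁻¹ • f x) := by
    intro g
    filter_upwards [hEae, hφ g] with x hx h1
    rw [bX_T] at h1
    simp only [hc, if_pos hx] at h1
    rw [hκs g x hx.1, h1, mul_smul, mul_smul, inv_smul_smul]
  have hfg : π.range.FG := by
    refine ⟨S.image π, ?_⟩
    rw [MonoidHom.range_eq_map, ← hcl, MonoidHom.map_closure, Finset.coe_image]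
  rcases hG.dichotomy π.range hfg with hfin | hfi
  · -- finite range
    refine hlocf π.range ?_ (fun x => (φ x)⁻¹) hφim ?_
    · intro H hH _
      exact Finite.of_injective (Subgroup.inclusion hH) (Subgroup.inclusion_injective hH)
    · intro g
      filter_upwards [hf2eq g] with x hx
      exact ⟨π g, ⟨g, rfl⟩, hx⟩
  · -- range of finite index
    have hf₂m : Measurable (fun x => (φ x)⁻¹ • f x) :=
      measurable_piece hmeas (fun x => (φ x)⁻¹) hφim f hf
    have hprob : IsProbabilityMeasure ((bX G).P.map (fun x => (φ x)⁻¹ • f x)) :=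
      Measure.isProbabilityMeasure_map hf₂m.aemeasurable
    have h0 := no_finite_index hmeas hno π.range hfi ((bX G).P.map (fun x => (φ x)⁻¹ • f x)) (by
      rintro _ ⟨g, rfl⟩
      rw [Measure.map_map (hmeas _) hf₂m]
      have h1 : (bX G).P.map ((fun y => π g • y) ∘ fun x => (φ x)⁻¹ • f x) =
          (bX G).P.map ((fun x => (φ x)⁻¹ • f x) ∘ shift g) := by
        refine Measure.map_congr ?_
        filter_upwards [hf2eq g] with x hx
        exact hx.symm
      rw [h1, ← Measure.map_map hf₂m (measurable_shift g)]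
      congr 1
      exact ((bX G).mp g).map_eq)
    exact (IsProbabilityMeasure.ne_zero _) h0

/-- MODULE FIN. -/
theorem fin : FinStatement := by
  intro hSTAB hSR hLOCF G _ hG hDC
  classical
  have hcount := hG.countable
  have hinf := hG.infinite
  obtain ⟨Y, _, _, _, hmeas, horb, ⟨c, hcm, hcinj, hcorb, hcmiss⟩, ⟨f, hfm, hforb⟩⟩ :=
    hDC (XI G) XI.measurable_smul XI.orbit_infinite
  obtain ⟨x₁⟩ := XI.nonempty G
  set F : X0 G → Y := fun x => if h : Function.Injective x then f ⟨x, h⟩ else f x₁ with hF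
  have hFinj : ∀ x (h : Function.Injective x), F x = f ⟨x, h⟩ := by
    intro x h
    simp only [hF, dif_pos h]
  have hFm : Measurable F := by
    have h1 : Measurable (fun x : {x : X0 G // Function.Injective x} => f ⟨x.1, x.2⟩) := hfm
    exact Measurable.dite h1 measurable_const (measurableSet_inj G)
  refine core hSTAB hSR hLOCF G hG Y hmeas horb
    (fun ν _ hν => no_invariant hmeas c hcm hcinj hcorb hcmiss ν hν) F hFm ?_ ?_
  · intro x hx g
    rw [hFinj x hx, hFinj _ (shift_inj g hx)]
    exact (hforb ⟨x, hx⟩ (g • ⟨x, hx⟩)).1 ⟨g, rfl⟩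
  · intro y₀
    by_cases hex : ∃ x : XI G, f x ∈ MulAction.orbit G y₀
    · obtain ⟨x, hx⟩ := hex
      have h1 : (bX G).P {x' : X0 G | ∃ g : G, x' = shift g x.1} = 0 := by
        apply bX_countable
        have : {x' : X0 G | ∃ g : G, x' = shift g x.1} = Set.range (fun g : G => shift g x.1) := by
          ext z
          simp [eq_comm]
        rw [this]
        exact Set.countable_range _
      have h2 : (bX G).P {x' : X0 G | ¬ Function.Injective x'} = 0 := bX_inj G
      refine measure_mono_null ?_ (measure_union_null h1 h2)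
      intro x' hx'
      by_cases hi : Function.Injective x'
      · left
        have h3 : F x' ∈ MulAction.orbit G y₀ := hx'
        rw [hFinj x' hi] at h3
        have h4 : f ⟨x', hi⟩ ∈ MulAction.orbit G (f x) := by
          rw [← MulAction.orbit_eq_iff] at h3 hx ⊢
          rw [h3, hx]
        obtain ⟨g, hg⟩ := (hforb x ⟨x', hi⟩).2 h4
        exact ⟨g, (congrArg Subtype.val hg).symm⟩
      · right
        exact hi
    · have h2 : (bX G).P {x' : X0 G | ¬ Function.Injective x'} = 0 := bX_inj G
      refine measure_mono_null ?_ h2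
      intro x' hx' hi
      apply hex
      refine ⟨⟨x', hi⟩, ?_⟩
      rw [← hFinj x' hi]
      exact hx'

end Pool.Agent.Helper55_DC
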