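import Pool.Agent.Helper95_DC.StatFin

set_option autoImplicit false

/-! Module FIN, part A: the free Bernoulli space and invariant measures. -/

namespace Pool.Agent.Helper55_DC

open MeasureTheory Filter Pool.Agent.Helper95_DC

/-! ### The space of injective configurations -/

/-- Injective configurations. -/
def XI (G : Type) : Type := {x : G → unitInterval // Function.Injective x}

instance (G : Type) : MeasurableSpace (XI G) :=
  inferInstanceAs (MeasurableSpace {x : G → unitInterval // Function.Injective x})

theorem measurableSet_inj (G : Type) [Countable G] :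
    MeasurableSet {x : G → unitInterval | Function.Injective x} := by
  have : {x : G → unitInterval | Function.Injective x} =
      ⋂ g : G, ⋂ h : G, {x : G → unitInterval | x g = x h → g = h} := by
    ext x
    simp only [Set.mem_setOf_eq, Set.mem_iInter]
    exact ⟨fun h g g' => @h g g', fun h g g' => h g g'⟩
  rw [this]
  refine MeasurableSet.iInter fun g => MeasurableSet.iInter fun h => ?_
  by_cases hgh : g = h
  · simp [hgh]
  · have h2 : {x : G → unitInterval | x g = x h → g = h} =
        {x : G → unitInterval | x g = x h}ᶜ := by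
      ext x
      simp only [Set.mem_setOf_eq, Set.mem_compl_iff]
      exact ⟨fun h e => hgh (h e), fun h e => absurd e h⟩
    rw [h2]
    exact (measurableSet_eq_fun (measurable_pi_apply g) (measurable_pi_apply h)).compl

instance (G : Type) [Countable G] : StandardBorelSpace (XI G) :=
  (measurableSet_inj G).standardBorel

theorem shift_inj {G : Type} [Group G] (g : G) {x : G → unitInterval}
    (hx : Function.Injective x) : Function.Injective (shift g x) := by
  intro a b hab
  exact mul_left_cancel (hx hab)

theorem shift_inj_iff {G : Type} [Group G] (g : G) {x : G → unitInterval} :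
    Function.Injective (shift g x) ↔ Function.Injective x := by
  constructor
  · intro h a b hab
    have : shift g x (g * a) = shift g x (g * b) := by simp [shift, hab]
    exact mul_left_cancel (h this)
  · exact shift_inj g

theorem shift_one' {G : Type} [Group G] {B : Type} (x : G → B) : shift 1 x = x := by
  funext h; simp [shift]

theorem shift_mul' {G : Type} [Group G] {B : Type} (g h : G) (x : G → B) :
    shift (g * h) x = shift g (shift h x) := by
  funext k; simp [shift, mul_assoc]

instance (G : Type) [Group G] : MulAction G (XI G) where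
  smul g x := ⟨shift g x.1, shift_inj g x.2⟩
  one_smul x := Subtype.ext (shift_one' x.1)
  mul_smul g h x := Subtype.ext (shift_mul' g h x.1)

theorem XI.smul_val {G : Type} [Group G] (g : G) (x : XI G) : (g • x).1 = shift g x.1 := rfl

theorem measurable_shift {G : Type} [Group G] {B : Type} [MeasurableSpace B] (g : G) :
    Measurable (shift g : (G → B) → (G → B)) := by
  unfold shift
  fun_prop

theorem XI.measurable_smul {G : Type} [Group G] (g : G) :
    Measurable (fun x : XI G => g • x) := by
  refine Measurable.subtype_mk ?_
  exact (measurable_shift g).comp measurable_subtype_coe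

theorem XI.orbit_infinite {G : Type} [Group G] [Infinite G] (x : XI G) :
    (MulAction.orbit G x).Infinite := by
  refine Set.infinite_range_of_injective ?_
  intro g g' h
  have h1 : shift g x.1 = shift g' x.1 := congrArg Subtype.val h
  have h2 := congrFun h1 1
  have h3 : g⁻¹ * 1 = g'⁻¹ * 1 := x.2 h2
  simpa using h3

theorem XI.nonempty (G : Type) [Countable G] : Nonempty (XI G) := by
  obtain ⟨e, he⟩ := exists_injective_nat G
  refine ⟨⟨fun g => ⟨1 / ((e g : ℝ) + 1), ?_, ?_⟩, ?_⟩⟩
  · positivity
  · rw [div_le_one (by positivity)]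
    have : (0 : ℝ) ≤ e g := by positivity
    linarith
  · intro a b hab
    have h1 : 1 / ((e a : ℝ) + 1) = 1 / ((e b : ℝ) + 1) := congrArg Subtype.val hab
    have h2 : (e a : ℝ) + 1 = (e b : ℝ) + 1 := by
      have := congrArg (fun t : ℝ => 1 / t) h1
      simpa using this
    have h3 : (e a : ℝ) = e b := by linarith
    exact he (by exact_mod_cast h3)

/-! ### Null sets of the Bernoulli measure -/

theorem bX_T {G : Type} [Group G] (g : G) (x : X0 G) : (bX G).T g x = shift g x := rfl

theorem bX_eval {G : Type} [Group G] (g : G) :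
    MeasurePreserving (fun x : X0 G => x g) (bX G).P (volume : Measure unitInterval) :=
  measurePreserving_eval_infinitePi (fun _ : G => (volume : Measure unitInterval)) g

theorem bX_singleton {G : Type} [Group G] (x : X0 G) : (bX G).P {x} = 0 := by
  have h : (bX G).P {x' : X0 G | x' 1 = x 1} = 0 := by
    have := (bX_eval (1 : G)).measure_preimage (measurableSet_singleton (x 1)).nullMeasurableSet
    rw [measure_singleton] at this
    exact this
  refine measure_mono_null ?_ h
  rintro y rfl
  rfl

theorem bX_countable {G : Type} [Group G] {A : Set (X0 G)} (hA : A.Countable) :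
    (bX G).P A = 0 := by
  have : NullMeasurableSet A (bX G).P ∨ True := Or.inr trivial
  rw [← Set.biUnion_of_singleton A]
  rw [measure_biUnion_null_iff hA]
  intro x _
  exact bX_singleton x

theorem bX_inj (G : Type) [Group G] [Countable G] :
    ∀ᵐ x ∂(bX G).P, Function.Injective x := by
  have key : ∀ g h : G, g ≠ h → (bX G).P {x : X0 G | x g = x h} = 0 := by
    intro g h hgh
    have hind : ProbabilityTheory.iIndepFun (fun (i : G) (ω : X0 G) => ω i) (bX G).P :=
      ProbabilityTheory.iIndepFun_infinitePi (P := fun _ : G => (volume : Measure unitInterval))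
        (X := fun _ => id) (fun _ => measurable_id)
    have h2 := (hind.indepFun hgh)
    rw [ProbabilityTheory.indepFun_iff_map_prod_eq_prod_map_map
      (measurable_pi_apply g).aemeasurable (measurable_pi_apply h).aemeasurable,
      (bX_eval g).map_eq, (bX_eval h).map_eq] at h2
    have h3 : (bX G).P {x : X0 G | x g = x h} =
        ((bX G).P.map (fun ω : X0 G => (ω g, ω h))) {p : unitInterval × unitInterval | p.1 = p.2} := by
      rw [Measure.map_apply ((measurable_pi_apply g).prodMk (measurable_pi_apply h))
        (measurableSet_eq_fun measurable_fst measurable_snd)]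
      rfl
    rw [h3, h2, Measure.measure_prod_null (measurableSet_eq_fun measurable_fst measurable_snd)]
    refine Filter.Eventually.of_forall fun a => ?_
    have : Prod.mk a ⁻¹' {p : unitInterval × unitInterval | p.1 = p.2} = {a} := by
      ext b
      simp [eq_comm]
    show volume (Prod.mk a ⁻¹' {p : unitInterval × unitInterval | p.1 = p.2}) = 0
    rw [this]
    simp
  have h1 : ∀ᵐ x ∂(bX G).P, ∀ g h : G, g ≠ h → x g ≠ x h := by
    rw [ae_all_iff]; intro g
    rw [ae_all_iff]; intro h
    by_cases hgh : g = h
    · exact Filter.Eventually.of_forall fun x h' => absurd hgh h'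
    · have h0 := key g h hgh
      have h1 : ∀ᵐ x ∂(bX G).P, ¬ (x g = x h) := by
        rw [ae_iff]
        simpa using h0
      filter_upwards [h1] with x hx _ using hx
  filter_upwards [h1] with x hx
  intro g h hgh
  by_contra hne
  exact hx g h hne hgh

/-! ### Compression excludes invariant finite measures -/

theorem no_invariant {G : Type} [Group G] [Countable G] {Y : Type} [MeasurableSpace Y]
    [StandardBorelSpace Y] [MulAction G Y] (hmeas : ∀ g : G, Measurable (fun y : Y => g • y))
    (c : Y → Y) (hc : Measurable c) (hinj : Function.Injective c)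
    (horb : ∀ y : Y, c y ∈ MulAction.orbit G y)
    (hmiss : ∀ y : Y, ∃ z ∈ MulAction.orbit G y, ∀ w : Y, c w ≠ z)
    (ν : Measure Y) [IsFiniteMeasure ν] (hν : ∀ g : G, ν.map (fun y => g • y) = ν) :
    ν = 0 := by
  classical
  obtain ⟨e, he⟩ := exists_injective_nat G
  set A : G → Set Y := fun g => {y | c y = g • y ∧ ∀ h, e h < e g → c y ≠ h • y} with hA
  have hAm : ∀ g, MeasurableSet (A g) := by
    intro g
    have h1 : A g = {y | c y = g • y} ∩ ⋂ h : G, ⋂ _ : e h < e g, {y | c y = h • y}ᶜ := by
      ext y
      simp [hA]
    rw [h1]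
    refine (measurableSet_eq_fun hc (hmeas g)).inter ?_
    exact MeasurableSet.iInter fun h => MeasurableSet.iInter fun _ =>
      (measurableSet_eq_fun hc (hmeas h)).compl
  have hcov : ∀ y, ∃ g, y ∈ A g := by
    intro y
    obtain ⟨g, hg⟩ := horb y
    have hg' : c y = g • y := hg.symm
    have hex : ∃ n, ∃ g, e g = n ∧ c y = g • y := ⟨e g, g, rfl, hg'⟩
    obtain ⟨k, hk1, hk2⟩ := Nat.find_spec hex
    refine ⟨k, hk2, fun h hh hcy => ?_⟩
    rw [hk1] at hh
    exact Nat.find_min hex hh ⟨h, rfl, hcy⟩
  have hdisj : ∀ g h, g ≠ h → Disjoint (A g) (A h) := by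
    intro g h hgh
    rw [Set.disjoint_left]
    intro y hy1 hy2
    rcases lt_trichotomy (e g) (e h) with h1 | h1 | h1
    · exact hy2.2 g h1 hy1.1
    · exact hgh (he h1)
    · exact hy1.2 h h1 hy2.1
  have himg : ∀ g, c '' A g = (fun y => g⁻¹ • y) ⁻¹' A g := by
    intro g
    ext z
    constructor
    · rintro ⟨y, hy, rfl⟩
      show g⁻¹ • c y ∈ A g
      rw [hy.1, inv_smul_smul]
      exact hy
    · intro hz
      have hz' : g⁻¹ • z ∈ A g := hz
      refine ⟨g⁻¹ • z, hz', ?_⟩
      rw [hz'.1, smul_inv_smul]
  have himgm : ∀ g, MeasurableSet (c '' A g) := by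
    intro g
    rw [himg]
    exact (hmeas g⁻¹) (hAm g)
  have himgν : ∀ g, ν (c '' A g) = ν (A g) := by
    intro g
    rw [himg]
    conv_rhs => rw [← hν g⁻¹]
    rw [Measure.map_apply (hmeas g⁻¹) (hAm g)]
  have hun : (⋃ g, A g) = Set.univ := by
    ext y
    simpa using hcov y
  have hrange : Set.range c = ⋃ g, c '' A g := by
    rw [← Set.image_iUnion, hun, Set.image_univ]
  have hrangem : MeasurableSet (Set.range c) := by
    rw [hrange]
    exact MeasurableSet.iUnion himgm
  have hνr : ν (Set.range c) = ν Set.univ := by
    rw [hrange, measure_iUnion _ himgm, ← hun, measure_iUnion _ hAm]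
    · exact tsum_congr himgν
    · intro g h hgh
      exact hdisj g h hgh
    · intro g h hgh
      exact (Set.disjoint_image_iff hinj).2 (hdisj g h hgh)
  have hνc : ν (Set.range c)ᶜ = 0 := by
    rw [measure_compl hrangem (measure_ne_top ν _), hνr, tsub_self]
  have hcov2 : (Set.univ : Set Y) ⊆ ⋃ g : G, (fun y => g • y) ⁻¹' (Set.range c)ᶜ := by
    intro y _
    obtain ⟨z, ⟨g, hg⟩, hz⟩ := hmiss y
    refine Set.mem_iUnion.2 ⟨g, ?_⟩
    show g • y ∈ (Set.range c)ᶜ
    rintro ⟨w, hw⟩
    exact hz w (hw.trans hg)
  rw [← Measure.measure_univ_eq_zero]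
  refine measure_mono_null hcov2 ?_
  rw [measure_iUnion_null_iff]
  intro g
  rw [← Measure.map_apply (hmeas g) hrangem.compl, hν g]
  exact hνc

end Pool.Agent.Helper55_DC
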