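import Pool.Agent.Helper55_DC.FinA

set_option autoImplicit false

/-! Module FIN, part B: measurable selections and the main argument. -/

namespace Pool.Agent.Helper55_DC

open MeasureTheory Filter Pool.Agent.Helper95_DC

theorem measurable_piece {G : Type} [Group G] [Countable G] {Ω Y : Type} [MeasurableSpace Ω]
    [MeasurableSpace Y] [MulAction G Y] (hmeas : ∀ g : G, Measurable (fun y : Y => g • y))
    (γ : Ω → G) (hγ : ∀ k, MeasurableSet {x | γ x = k}) (f : Ω → Y) (hf : Measurable f) :
    Measurable (fun x => γ x • f x) := by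
  intro B hB
  have : (fun x => γ x • f x) ⁻¹' B = ⋃ k : G, {x | γ x = k} ∩ (fun x => k • f x) ⁻¹' B := by
    ext x
    simp
  rw [this]
  exact MeasurableSet.iUnion fun k => (hγ k).inter (((hmeas k).comp hf) hB)

open Classical in
/-- The first element moving `y` to `y'`. -/
noncomputable def sel {G : Type} [Group G] [Countable G] {Y : Type} [MulAction G Y]
    (y y' : Y) : G :=
  if h : ∃ n, ∃ k : G, Classical.choose (exists_injective_nat G) k = n ∧ y' = k • y then
    Classical.choose (Nat.find_spec h) else 1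

theorem sel_spec {G : Type} [Group G] [Countable G] {Y : Type} [MulAction G Y]
    {y y' : Y} (h : y' ∈ MulAction.orbit G y) : y' = sel (G := G) y y' • y := by
  classical
  obtain ⟨g, hg⟩ := h
  have hex : ∃ n, ∃ k : G, Classical.choose (exists_injective_nat G) k = n ∧ y' = k • y :=
    ⟨_, g, rfl, hg.symm⟩
  unfold sel
  rw [dif_pos hex]
  exact (Classical.choose_spec (Nat.find_spec hex)).2

theorem sel_not {G : Type} [Group G] [Countable G] {Y : Type} [MulAction G Y]
    {y y' : Y} (h : y' ∉ MulAction.orbit G y) : sel (G := G) y y' = 1 := by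
  classical
  have hex : ¬ ∃ n, ∃ k : G, Classical.choose (exists_injective_nat G) k = n ∧ y' = k • y := by
    rintro ⟨n, k, _, hk⟩
    exact h ⟨k, hk.symm⟩
  unfold sel
  rw [dif_neg hex]

theorem sel_min {G : Type} [Group G] [Countable G] {Y : Type} [MulAction G Y]
    {y y' : Y} (k : G) (hk : y' = k • y) :
    Classical.choose (exists_injective_nat G) (sel (G := G) y y') ≤
      Classical.choose (exists_injective_nat G) k := by
  classical
  have hex : ∃ n, ∃ k : G, Classical.choose (exists_injective_nat G) k = n ∧ y' = k • y :=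
    ⟨_, k, rfl, hk⟩
  unfold sel
  rw [dif_pos hex]
  rw [(Classical.choose_spec (Nat.find_spec hex)).1]
  exact Nat.find_min' hex ⟨k, rfl, hk⟩

theorem sel_eq_iff {G : Type} [Group G] [Countable G] {Y : Type} [MulAction G Y]
    (y y' : Y) (k : G) : sel (G := G) y y' = k ↔
      ((y' = k • y ∧ ∀ h : G, Classical.choose (exists_injective_nat G) h <
        Classical.choose (exists_injective_nat G) k → y' ≠ h • y) ∨
        (k = 1 ∧ ∀ h : G, y' ≠ h • y)) := by
  classical
  have he := Classical.choose_spec (exists_injective_nat G)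
  by_cases hy : y' ∈ MulAction.orbit G y
  · have h1 := sel_spec hy
    constructor
    · rintro rfl
      refine Or.inl ⟨h1, fun h hh hyh => ?_⟩
      exact absurd (sel_min (G := G) h hyh) (not_le.2 hh)
    · rintro (⟨h2, h3⟩ | ⟨_, h3⟩)
      · have h4 := sel_min (G := G) k h2
        rcases lt_or_eq_of_le h4 with h5 | h5
        · exact absurd h1 (h3 _ h5)
        · exact he h5
      · exact absurd h1 (h3 _)
  · have h1 := sel_not (G := G) hy
    have h2 : ∀ h : G, y' ≠ h • y := fun h hh => hy ⟨h, hh.symm⟩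
    constructor
    · intro h
      exact Or.inr ⟨by rw [← h, h1], h2⟩
    · rintro (⟨h3, _⟩ | ⟨h3, _⟩)
      · exact absurd h3 (h2 k)
      · rw [h1, h3]

theorem measurable_sel {G : Type} [Group G] [Countable G] {Ω Y : Type} [MeasurableSpace Ω]
    [MeasurableSpace Y] [StandardBorelSpace Y] [MulAction G Y]
    (hmeas : ∀ g : G, Measurable (fun y : Y => g • y))
    (f f' : Ω → Y) (hf : Measurable f) (hf' : Measurable f') (k : G) :
    MeasurableSet {x | sel (G := G) (f x) (f' x) = k} := by
  have hm : ∀ h : G, MeasurableSet {x | f' x = h • f x} := fun h =>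
    measurableSet_eq_fun hf' ((hmeas h).comp hf)
  have : {x | sel (G := G) (f x) (f' x) = k} =
      ({x | f' x = k • f x} ∩ ⋂ h : G, ⋂ _ : Classical.choose (exists_injective_nat G) h <
        Classical.choose (exists_injective_nat G) k, {x | f' x = h • f x}ᶜ) ∪
      (⋂ _ : k ≠ 1, ∅) ∩ ⋂ h : G, {x | f' x = h • f x}ᶜ := by
    ext x
    simp only [Set.mem_setOf_eq, sel_eq_iff, Set.mem_union, Set.mem_inter_iff, Set.mem_iInter,
      Set.mem_compl_iff]
    simp
  rw [this]
  refine ((hm k).inter (MeasurableSet.iInter fun h => MeasurableSet.iInter fun _ =>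
    (hm h).compl)).union (MeasurableSet.inter ?_ (MeasurableSet.iInter fun h => (hm h).compl))
  exact MeasurableSet.iInter fun _ => MeasurableSet.empty

theorem mem_stab_sup {G : Type} [Group G] {Y : Type} [MulAction G Y] (V : Subgroup G) [V.Normal]
    (y : Y) (h : G) : h ∈ MulAction.stabilizer G y ⊔ V ↔ ∃ v ∈ V, (h * v) • y = y := by
  rw [Subgroup.mem_sup_of_normal_right]
  constructor
  · rintro ⟨s, hs, v, hv, rfl⟩
    exact ⟨v⁻¹, V.inv_mem hv, by simpa using hs⟩
  · rintro ⟨v, hv, hy⟩
    exact ⟨h * v, hy, v⁻¹, V.inv_mem hv, by simp⟩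

/-- Conjugation by an element moving `y` to `y'`. -/
theorem mem_stab_sup_smul {G : Type} [Group G] {Y : Type} [MulAction G Y] (V : Subgroup G)
    [hV : V.Normal] (y : Y) (k h : G) : h ∈ MulAction.stabilizer G (k • y) ⊔ V ↔
      k⁻¹ * h * k ∈ MulAction.stabilizer G y ⊔ V := by
  rw [mem_stab_sup, mem_stab_sup]
  constructor
  · rintro ⟨v, hv, hy⟩
    refine ⟨k⁻¹ * v * k, ?_, ?_⟩
    · have := hV.conj_mem v hv k⁻¹
      simpa using this
    · have : k⁻¹ * h * k * (k⁻¹ * v * k) = k⁻¹ * (h * v) * k := by group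
      rw [this, mul_smul, mul_smul, hy, inv_smul_smul]
  · rintro ⟨v, hv, hy⟩
    refine ⟨k * v * k⁻¹, hV.conj_mem v hv k, ?_⟩
    have : h * (k * v * k⁻¹) = k * (k⁻¹ * h * k * v) * k⁻¹ := by group
    rw [this, mul_smul, mul_smul, inv_smul_smul, hy]

end Pool.Agent.Helper55_DC
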